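import Pool.Agent.Q257.CL.Total

/-!
# The sixth cumulant of `∑ cos (2 π ⌊η ^ k⌋ ω)` grows quadratically for `η = √φ`

`φ` is the golden ratio. The number `η = √φ` is an algebraic integer, and it is not a Perron number
since `-η` is a conjugate. The even frequencies are `a (2 j) = ⌊φ ^ j⌋ = L_j - [j even]` (Lucas
numbers), so `a (2 j + 4) - a (2 j + 2) - a (2 j) = 1` for every odd `j`. The difference of two
such relations is a vanishing sum of six signed frequencies without vanishing proper sub-sums; this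
gives a quadratic number of six-tuples whose joint cumulant is one. All but linearly many of the
six-tuples with total frequency zero have a nonnegative joint cumulant, by an analysis of the
vanishing sub-sums of two, three and four terms, which only uses lacunarity. So the sixth cumulant
is at least `c n ^ 2 - C n`.
-/

set_option autoImplicit false

namespace Pool.Agent.Results.MP_e4803a_nt.SqrtGolden

open MeasureTheory Filter Topology Polynomial

/-- The cosine sum `S_n (ω) = ∑_{k=1}^n cos (2 π a_k ω)`. -/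
noncomputable def cosSum (a : ℕ → ℤ) (n : ℕ) (ω : ℝ) : ℝ :=
  ∑ k ∈ Finset.Icc 1 n, Real.cos (2 * Real.pi * a k * ω)

/-- The `m`-th cumulant of a random variable on `[0, 1]` with Lebesgue measure. -/
noncomputable def cumulant (m : ℕ) (X : ℝ → ℝ) : ℝ :=
  iteratedDeriv m (fun t : ℝ => Real.log (∫ ω in Set.Icc (0 : ℝ) 1, Real.exp (t * X ω))) 0

/-- The moment generating function of the arcsine law on `(-1, 1)`. -/
noncomputable def besselI0 (t : ℝ) : ℝ := ∑' j : ℕ, (t / 2) ^ (2 * j) / (j.factorial : ℝ) ^ 2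

/-- The cumulants of the arcsine law on `(-1, 1)`. -/
noncomputable def arcsineCumulant (m : ℕ) : ℝ :=
  iteratedDeriv m (fun t : ℝ => Real.log (besselI0 t)) 0

/-- Perron numbers: real algebraic integers `η > 1` all of whose other conjugates have absolute
value smaller than `η`. -/
def IsPerron (η : ℝ) : Prop :=
  1 < η ∧ IsIntegral ℤ η ∧ ∀ z : ℂ, aeval z (minpoly ℚ η) = 0 → z ≠ (η : ℂ) → ‖z‖ < η

/-- The statement of Q1. -/
def Question : Prop :=
  ∀ η : ℝ, 1 < η → IsAlgebraic ℚ η → ¬ IsPerron η →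
    ∃ c : ℕ → ℝ,
      (∀ m : ℕ, 1 ≤ m → Tendsto
        (fun n : ℕ => cumulant m (cosSum (fun k => ⌊η ^ k⌋) n) / n) atTop (𝓝 (c m))) ∧
      ∃ m : ℕ, 1 ≤ m ∧ c m ≠ arcsineCumulant m

open Q257.CL in
theorem cumulant_six (n : ℕ) :
    cumulant 6 (cosSum (fun k => ⌊eta ^ k⌋) n) =
      ((∑ q : Fin 6 → Ix n, z (fun i => val fr (q i)) Finset.univ * kap (fun i => val fr (q i)) : ℤ)
        : ℝ) / 384 := by
  have hS : cosSum (fun k => ⌊eta ^ k⌋) n = S fr n := rfl
  have hcont := continuous_S fr n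
  have : IsProbabilityMeasure (volume.restrict (Set.Icc (0 : ℝ) 1)) := ⟨by simp⟩
  have hb : ∀ ω, |S fr n ω| ≤ n := by
    intro ω
    unfold S
    refine (Finset.abs_sum_le_sum_abs _ _).trans ?_
    refine (Finset.sum_le_card_nsmul _ _ 1 fun k _ => Real.abs_cos_le_one _).trans ?_
    simp
  have h1 : ∫ ω in Set.Icc (0 : ℝ) 1, S fr n ω = 0 := by
    have h := moment fr n 1
    simp only [pow_one] at h
    rw [h]
    have : NN (val fr (n := n)) (Fin 1) = 0 := by
      unfold NN
      refine Finset.sum_eq_zero fun q _ => ?_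
      unfold zs
      rw [Fin.sum_univ_one, if_neg ((lac n).ne _)]
    rw [this]; simp
  unfold cumulant
  rw [hS, kappa6 _ (S fr n) hcont.measurable n hb h1, moment, moment, moment, moment, Q257.CL.expand]
  push_cast
  ring

open Q257.CL in
theorem cumulant_lower : ∃ c C : ℝ, 0 < c ∧ ∀ n : ℕ,
    c * (n : ℝ) ^ 2 - C * n ≤ cumulant 6 (cosSum (fun k => ⌊eta ^ k⌋) n) := by
  obtain ⟨K, hK⟩ := total_bound
  refine ⟨1 / 4096, 66 / 4096 + K / 384, by norm_num, fun n => ?_⟩
  rw [cumulant_six]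
  obtain ⟨hK1, hK2⟩ := hK n
  set T : ℤ := ∑ q : Fin 6 → Ix n, z (fun i => val fr (q i)) Finset.univ *
    kap (fun i => val fr (q i)) with hT
  have hn0 : (0 : ℝ) ≤ n := Nat.cast_nonneg n
  rcases le_or_gt 33 n with hn | hn
  · obtain ⟨R, hR1, hR2⟩ : ∃ R : ℕ, 8 * R + 26 ≤ n ∧ n ≤ 8 * R + 33 :=
      ⟨(n - 26) / 8, by omega, by omega⟩
    have h' : (6 * (R : ℝ) ^ 2 - K * n) ≤ (T : ℝ) := by exact_mod_cast hK1 R hR1
    have h2 : (n : ℝ) ≤ 8 * R + 33 := by exact_mod_cast hR2
    have h3 : (33 : ℝ) ≤ n := by exact_mod_cast hn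
    have h4 : ((n : ℝ) - 33) ^ 2 ≤ (8 * R) ^ 2 :=
      pow_le_pow_left₀ (by linarith) (by linarith) 2
    rw [le_div_iff₀ (by norm_num)]
    nlinarith
  · have h' : (- ((K : ℝ) * n)) ≤ (T : ℝ) := by exact_mod_cast hK2
    have h3 : (n : ℝ) ≤ 33 := by exact_mod_cast hn.le
    rw [le_div_iff₀ (by norm_num)]
    nlinarith

open Q257.CL in
theorem not_perron : ¬ IsPerron eta := by
  rintro ⟨_, _, h⟩
  have h1 : aeval eta (minpoly ℚ eta) = 0 := minpoly.aeval ℚ eta
  have h2 := conj_root _ h1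
  have h3 : aeval ((-eta : ℝ) : ℂ) (minpoly ℚ eta) = 0 := by
    have := Polynomial.aeval_algebraMap_apply ℂ (-eta : ℝ) (minpoly ℚ eta)
    rw [h2, map_zero] at this
    exact this
  have h4 := h _ h3 (by
    intro h5
    have h6 : -eta = eta := Complex.ofReal_injective h5
    have := eta_pos
    linarith)
  rw [Complex.norm_real, norm_neg, Real.norm_eq_abs, abs_of_pos eta_pos] at h4
  exact lt_irrefl _ h4

open Q257.CL in
theorem eta_integral : IsIntegral ℤ eta := by
  refine ⟨X ^ 4 - X ^ 2 - 1, ?_, ?_⟩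
  · have : (X ^ 4 - X ^ 2 - 1 : ℤ[X]) = X ^ 4 - (X ^ 2 + 1) := by ring
    rw [this]
    refine monic_X_pow_sub ?_
    compute_degree
    norm_num
  · simp only [eval₂_sub, eval₂_X_pow, eval₂_one]
    have h := eta_sq
    have h2 := Real.goldenRatio_sq
    have : Q257.CL.eta ^ 4 = (Q257.CL.eta ^ 2) ^ 2 := by ring
    rw [this, h, h2]; ring

/-- Q1 is false. For `η = √φ`, which is an algebraic integer and not a Perron number, the sixth
cumulant of `S_n` is at least `c n ^ 2 - C n` with `c > 0`, so that `κ_6 (S_n) / n` tends to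
infinity. -/
theorem result :
    ¬ Question ∧
    1 < √Real.goldenRatio ∧ IsIntegral ℤ √Real.goldenRatio ∧ ¬ IsPerron √Real.goldenRatio ∧
    (∃ c C : ℝ, 0 < c ∧ ∀ n : ℕ,
      c * (n : ℝ) ^ 2 - C * n ≤ cumulant 6 (cosSum (fun k => ⌊√Real.goldenRatio ^ k⌋) n)) ∧
    Tendsto (fun n : ℕ => cumulant 6 (cosSum (fun k => ⌊√Real.goldenRatio ^ k⌋) n) / n)
      atTop atTop := by
  have e : √Real.goldenRatio = Q257.CL.eta := rfl
  rw [e]
  have h1 : 1 < Q257.CL.eta := by linarith [Q257.CL.eta_gt]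
  obtain ⟨c, C, hc, hl⟩ := cumulant_lower
  have ht : Tendsto (fun n : ℕ => cumulant 6 (cosSum (fun k => ⌊Q257.CL.eta ^ k⌋) n) / n)
      atTop atTop := by
    have h2 : Tendsto (fun n : ℕ => c * (n : ℝ) - C) atTop atTop :=
      tendsto_atTop_add_const_right _ _ (tendsto_natCast_atTop_atTop.const_mul_atTop hc)
    refine tendsto_atTop_mono' _ ?_ h2
    filter_upwards [eventually_gt_atTop 0] with n hn
    have hn' : (0 : ℝ) < n := by exact_mod_cast hn
    rw [le_div_iff₀ hn']
    have := hl n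
    nlinarith
  refine ⟨fun hQ => ?_, h1, eta_integral, not_perron, ⟨c, C, hc, hl⟩, ht⟩
  obtain ⟨d, hd, _⟩ := hQ Q257.CL.eta h1 (eta_integral.tower_top (A := ℚ)).isAlgebraic not_perron
  exact not_tendsto_nhds_of_tendsto_atTop ht (d 6) (hd 6 (by norm_num))

end Pool.Agent.Results.MP_e4803a_nt.SqrtGolden
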